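import Pool.Agent.Lib.MP_775e5c_al.H42Center
import Pool.Agent.Lib.MP_775e5c_al.H42Unit
import Pool.Agent.Lib.MP_775e5c_al.H42Kernel

/-!
Convolution powers of word measures on compact connected semisimple Lie groups have bounded
density after a number of steps polynomial in the length of the word, uniformly in the group.
-/

namespace Pool.Agent.Results.MP_775e5c_al.BoundedDensityLie

open MeasureTheory
open scoped Manifold
open Pool.Agent.Lib.MP_775e5c_al (wordMeasure convPow HasBoundedDensity)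

universe u v

theorem result : ∃ C α : ℕ, 0 < C ∧ 0 < α ∧
    ∀ (r : ℕ) (w : FreeGroup (Fin r)), w ≠ 1 → ∀ t : ℕ, C * w.norm ^ α ≤ t →
      ∀ (E : Type v) [NormedAddCommGroup E] [NormedSpace ℝ E] [FiniteDimensional ℝ E]
        (G : Type u) [Group G] [TopologicalSpace G] [ChartedSpace E G]
        [LieGroup 𝓘(ℝ, E) (minSmoothness ℝ 3) G] [CompactSpace G] [ConnectedSpace G]
        [MeasurableSpace G] [BorelSpace G],
        LieAlgebra.IsSemisimple ℝ (GroupLieAlgebra 𝓘(ℝ, E) G) →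
        ∀ (μ : Measure G) [μ.IsHaarMeasure] [IsProbabilityMeasure μ],
          HasBoundedDensity (convPow (wordMeasure w μ) t) μ := by
  obtain ⟨C, hC, h⟩ := Lib.MP_775e5c_al.H42.exists_bound_ker.{u}
  refine ⟨C, 9, hC, by norm_num, fun r w hw t ht E _ _ _ G _ _ _ hG _ _ _ _ hs μ _ _ => ?_⟩
  have : LieGroup 𝓘(ℝ, E) 3 G := by simpa using hG
  have := topologicalGroup_of_lieGroup 𝓘(ℝ, E) 3 (G := G)
  have := ChartedSpace.t1Space E G
  have := ChartedSpace.secondCountable_of_sigmaCompact E G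
  obtain ⟨N, ρ, hρ, hk⟩ := Lib.MP_775e5c_al.H42.exists_unitary μ (Lib.MP_775e5c_al.H42.ad E G)
    Lib.MP_775e5c_al.H42.ad_cont
  refine h r w hw t ht G N ρ hρ (hk.trans Lib.MP_775e5c_al.H42.ad_ker)
    (Lib.MP_775e5c_al.H42.finite_center (E := E) fun v hv => ?_) μ
  have h1 : v ∈ LieAlgebra.center ℝ (GroupLieAlgebra 𝓘(ℝ, E) G) :=
    (LieModule.mem_maxTrivSubmodule _ _ _ _).2 fun x => by rw [← lie_skew, hv, neg_zero]
  rwa [LieAlgebra.center_eq_bot, LieSubmodule.mem_bot] at h1

end Pool.Agent.Results.MP_775e5c_al.BoundedDensityLie
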